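import Mathlib

/-!
Signs of `ZMod 2` valued functions and the basic character sums.
-/

namespace Pool.Agent.H36Sq

open Finset

/-- The sign `(-1)^a` of `a` in `ZMod 2`. -/
def sg (a : ZMod 2) : ℝ := if a = 0 then 1 else -1

theorem zmod2_cases (a : ZMod 2) : a = 0 ∨ a = 1 := by
  revert a; decide

theorem sg_zero : sg 0 = 1 := by simp [sg]
theorem sg_one : sg 1 = -1 := by simp [sg]

theorem sg_add (a b : ZMod 2) : sg (a + b) = sg a * sg b := by
  rcases zmod2_cases a with rfl | rfl <;> rcases zmod2_cases b with rfl | rfl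
  · simp [sg_zero]
  · simp [sg_zero]
  · simp [sg_zero]
  · have : (1 : ZMod 2) + 1 = 0 := by decide
    rw [this, sg_zero, sg_one]; norm_num

theorem sg_sq (a : ZMod 2) : sg a ^ 2 = 1 := by
  rcases zmod2_cases a with rfl | rfl <;> simp [sg_zero, sg_one]

theorem sg_mul_self (a : ZMod 2) : sg a * sg a = 1 := by
  rw [← sg_add]; 
  have : a + a = 0 := by revert a; decide
  rw [this, sg_zero]

theorem abs_sg (a : ZMod 2) : |sg a| = 1 := by
  rcases zmod2_cases a with rfl | rfl <;> simp [sg_zero, sg_one]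

variable {G : Type*} [AddCommGroup G] [Fintype G]

/-- A nonzero additive functional has sign sum zero. -/
theorem sum_sg_hom (f : G → ZMod 2) (hadd : ∀ x y, f (x + y) = f x + f y) (h : ∃ x, f x ≠ 0) :
    ∑ x, sg (f x) = 0 := by
  obtain ⟨x₀, hx₀⟩ := h
  have h1 : f x₀ = 1 := by
    rcases zmod2_cases (f x₀) with h | h
    · exact absurd h hx₀
    · exact h
  have h2 : ∑ x, sg (f (x + x₀)) = ∑ x, sg (f x) :=
    Fintype.sum_equiv (Equiv.addRight x₀) _ _ (fun x => rfl)
  have h3 : ∑ x, sg (f (x + x₀)) = - ∑ x, sg (f x) := by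
    rw [← Finset.sum_neg_distrib]
    apply Finset.sum_congr rfl
    intro x _
    rw [hadd, sg_add, h1, sg_one]; ring
  linarith

/-- The square of a sum as a correlation. -/
theorem sq_sum_corr (φ : G → ℝ) : (∑ y, φ y) ^ 2 = ∑ h, ∑ y, φ (y + h) * φ y := by
  rw [sq, Finset.sum_mul_sum, Finset.sum_comm]
  have : ∀ y, ∑ h, φ h * φ y = ∑ h, φ (y + h) * φ y := by
    intro y
    exact (Fintype.sum_equiv (Equiv.addLeft y) _ _ (fun x => rfl)).symm
  simp_rw [this]
  rw [Finset.sum_comm]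

/-- Weyl differencing for a phase `Q y + b x y`. -/
theorem weyl (Q : G → ZMod 2) (b : G → G → ZMod 2)
    (hb2 : ∀ x y y', b x (y + y') = b x y + b x y')
    (hz : ∀ h, h ≠ 0 → (∑ x, sg (b x h) = 0) ∨ (∑ y, sg (Q (y + h) + Q y) = 0)) :
    ∑ x, (∑ y, sg (Q y + b x y)) ^ 2 = (Fintype.card G : ℝ) ^ 2 := by
  have h0 : ∀ x, b x 0 = 0 := by
    intro x
    have := hb2 x 0 0
    simpa using this
  have e1 : ∀ x, (∑ y, sg (Q y + b x y)) ^ 2 =
      ∑ h, sg (b x h) * ∑ y, sg (Q (y + h) + Q y) := by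
    intro x
    rw [sq_sum_corr]
    apply Finset.sum_congr rfl
    intro h _
    rw [Finset.mul_sum]
    apply Finset.sum_congr rfl
    intro y _
    rw [hb2, sg_add, sg_add, sg_add, sg_add]
    have := sg_mul_self (b x y)
    calc sg (Q (y + h)) * (sg (b x y) * sg (b x h)) * (sg (Q y) * sg (b x y))
        = sg (Q (y + h)) * sg (b x h) * sg (Q y) * (sg (b x y) * sg (b x y)) := by ring
      _ = _ := by rw [this]; ring
  simp_rw [e1]
  rw [Finset.sum_comm]
  simp_rw [← Finset.sum_mul]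
  rw [Finset.sum_eq_single (0 : G)]
  · simp only [h0, sg_zero, add_zero]
    have : ∀ y, sg (Q y + Q y) = 1 := by
      intro y; rw [sg_add, sg_mul_self]
    simp only [this, Finset.sum_const, Finset.card_univ, nsmul_eq_mul, mul_one]
    ring
  · intro h _ hne
    rcases hz h hne with h1 | h1
    · rw [h1, zero_mul]
    · rw [h1, mul_zero]
  · intro h; exact absurd (Finset.mem_univ _) h

/-- Cauchy–Schwarz consequence: the full double sum. -/
theorem double_sq_le (Q₁ Q : G → ZMod 2) (b : G → G → ZMod 2)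
    (hb2 : ∀ x y y', b x (y + y') = b x y + b x y')
    (hz : ∀ h, h ≠ 0 → (∑ x, sg (b x h) = 0) ∨ (∑ y, sg (Q (y + h) + Q y) = 0)) :
    (∑ x, ∑ y, sg (Q₁ x + (Q y + b x y))) ^ 2 ≤ (Fintype.card G : ℝ) ^ 3 := by
  have h1 : ∑ x, ∑ y, sg (Q₁ x + (Q y + b x y)) = ∑ x, sg (Q₁ x) * ∑ y, sg (Q y + b x y) := by
    apply Finset.sum_congr rfl
    intro x _
    rw [Finset.mul_sum]
    apply Finset.sum_congr rfl
    intro y _
    rw [sg_add]
  rw [h1]
  have h2 := Finset.sum_mul_sq_le_sq_mul_sq Finset.univ (fun x => sg (Q₁ x))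
    (fun x => ∑ y, sg (Q y + b x y))
  refine h2.trans ?_
  rw [weyl Q b hb2 hz]
  simp only [sg_sq, Finset.sum_const, Finset.card_univ, nsmul_eq_mul, mul_one]
  apply le_of_eq; ring

end Pool.Agent.H36Sq
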