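import Pool.Agent.H36Sq.Form

/-!
The `ZMod 4` valued cocycle of a form and the sizes of the fibres of the label map.
-/

namespace Pool.Agent.H36Sq

open Finset

/-- The lift of a bit to `{0, 1}` in `ZMod 4`. -/
def c4 (a : ZMod 2) : ZMod 4 := if a = 0 then 0 else 1

/-- The combination `2 z + a + b + c` of lifted bits. -/
def zeta4 (z a b c : ZMod 2) : ZMod 4 := 2 * c4 z + c4 a + c4 b + c4 c

/-- The triple of cocycle values as a function of the labels. -/
def psi (s : ZMod 2) (u : Fin 8 → ZMod 2) : ZMod 4 × ZMod 4 × ZMod 4 :=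
  (zeta4 (u 7) (u 4) (u 5) (u 4 + u 5 + u 6),
   zeta4 (u 7 + u 2) (u 4 + s + u 0 + u 1) (u 5) (u 4 + s + u 0 + u 1 + u 5 + u 6 + u 2 + u 3),
   zeta4 (u 7 + u 0) (u 4) (u 5 + s + u 2 + u 3) (u 4 + u 5 + s + u 2 + u 3 + u 6 + u 0 + u 1))

theorem sum_bits : ∀ xx yy dd xy yx xd dx yd dy : ZMod 2,
    zeta4 xy xx yy (xx + xy + yx + yy) +
    zeta4 (xy + dy) (xx + xd + dx + dd) yy
      (xx + xd + dx + dd + xy + dy + yx + yd + yy) +
    zeta4 (xy + xd) xx (yy + yd + dy + dd) (xx + xy + xd + yx + dx + yy + yd + dy + dd) +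
    zeta4 (xy + xd + dy + dd) (xx + xd + dx + dd) (yy + yd + dy + dd)
      (xx + xy + yx + yy) = 0 := by
  decide +kernel

theorem fibre_card : ∀ s : ZMod 2, ∀ v : ZMod 4 × ZMod 4 × ZMod 4,
    (univ.filter (fun u : Fin 8 → ZMod 2 => psi s u = v)).card = 4 := by
  decide +kernel

theorem fibre_card_one : ∀ s : ZMod 2, ∀ v : ZMod 4,
    (univ.filter (fun u : Fin 8 → ZMod 2 => (psi s u).1 = v)).card = 64 := by
  decide +kernel

end Pool.Agent.H36Sq
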