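import Pool.Agent.H36Sq.Cocycle

/-!
Counting points and squares in the sets `zeta ∈ S`.
-/

namespace Pool.Agent.H36Sq

open Finset

variable {ι : Type*} [Fintype ι] [DecidableEq ι]
variable {G : Type*} [AddCommGroup G] [Fintype G] [DecidableEq G]

/-- The `ZMod 4` valued cocycle of a form. -/
def Form.zeta (M : Form G ι) (x y : G) : ι → ZMod 4 := fun i =>
  zeta4 (M.m x y i) (M.m x x i) (M.m y y i) (M.m (x + y) (x + y) i)

/-- The set of zero sum quadruples in `S`, coded by the first three entries. -/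
def quad (S : Finset (ι → ZMod 4)) : Finset ((ι → ZMod 4) × (ι → ZMod 4) × (ι → ZMod 4)) :=
  univ.filter (fun v => v.1 ∈ S ∧ v.2.1 ∈ S ∧ v.2.2 ∈ S ∧ -(v.1 + v.2.1 + v.2.2) ∈ S)

/-- The triple of vectors attached to a label vector. -/
def tri (s : ι → ZMod 2) (μ : Lab ι) : (ι → ZMod 4) × (ι → ZMod 4) × (ι → ZMod 4) :=
  (fun i => (psi (s i) (μ i)).1, fun i => (psi (s i) (μ i)).2.1, fun i => (psi (s i) (μ i)).2.2)

theorem tri_lab (M : Form G ι) (d x y : G) :
    tri (M.m d d) (M.lab d (x, y)) = (M.zeta x y, M.zeta (x + d) y, M.zeta x (y + d)) := by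
  unfold tri
  refine Prod.ext ?_ (Prod.ext ?_ ?_)
  · funext i
    simp only [psi, Form.lab, Form.zeta, M.add_left, M.add_right]
    simp
    congr 1; ring
  · funext i
    simp only [psi, Form.lab, Form.zeta, M.add_left, M.add_right]
    simp
    congr 1 <;> ring
  · funext i
    simp only [psi, Form.lab, Form.zeta, M.add_left, M.add_right]
    simp
    congr 1 <;> ring

theorem zeta_sum (M : Form G ι) (d x y : G) :
    M.zeta x y + M.zeta (x + d) y + M.zeta x (y + d) + M.zeta (x + d) (y + d) = 0 := by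
  funext i
  have h := sum_bits (M.m x x i) (M.m y y i) (M.m d d i) (M.m x y i) (M.m y x i) (M.m x d i)
    (M.m d x i) (M.m y d i) (M.m d y i)
  simp only [Pi.add_apply, Pi.zero_apply, Form.zeta, M.add_left, M.add_right]
  rw [← h]
  have t := z2_add_self (M.m x d i)
  have t1 := z2_add_self (M.m d d i)
  have t2 := z2_add_self (M.m d x i)
  have t3 := z2_add_self (M.m y d i)
  have t4 := z2_add_self (M.m d y i)
  congr 1
  · congr 1
    · congr 1
      · congr 1; ring
      · congr 1 <;> ring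
    · congr 1 <;> ring
  · congr 1
    · ring
    · ring
    · ring
    · linear_combination t + 2 * t1 + t2 + t3 + t4

theorem card_fibre_tri (s : ι → ZMod 2) (v : (ι → ZMod 4) × (ι → ZMod 4) × (ι → ZMod 4)) :
    (univ.filter (fun μ : Lab ι => tri s μ = v)).card = 4 ^ Fintype.card ι := by
  have h : univ.filter (fun μ : Lab ι => tri s μ = v) =
      Fintype.piFinset (fun i => univ.filter (fun u : Fin 8 → ZMod 2 =>
        psi (s i) u = (v.1 i, v.2.1 i, v.2.2 i))) := by
    ext μ
    simp only [Finset.mem_filter, Finset.mem_univ, true_and, Fintype.mem_piFinset]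
    constructor
    · intro h i
      rw [← h]; rfl
    · intro h
      refine Prod.ext ?_ (Prod.ext ?_ ?_) <;> funext i
      · exact congrArg (fun t => t.1) (h i)
      · exact congrArg (fun t => t.2.1) (h i)
      · exact congrArg (fun t => t.2.2) (h i)
  rw [h, Fintype.card_piFinset]
  simp only [fibre_card, Finset.prod_const, Finset.card_univ]

theorem card_fibre_one (s : ι → ZMod 2) (v : ι → ZMod 4) :
    (univ.filter (fun μ : Lab ι => (tri s μ).1 = v)).card = 64 ^ Fintype.card ι := by
  have h : univ.filter (fun μ : Lab ι => (tri s μ).1 = v) =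
      Fintype.piFinset (fun i => univ.filter (fun u : Fin 8 → ZMod 2 =>
        (psi (s i) u).1 = v i)) := by
    ext μ
    simp only [Finset.mem_filter, Finset.mem_univ, true_and, Fintype.mem_piFinset]
    constructor
    · intro h i
      rw [← h]; rfl
    · intro h
      funext i
      exact h i
  rw [h, Fintype.card_piFinset]
  simp only [fibre_card_one, Finset.prod_const, Finset.card_univ]

theorem card_tri_mem (s : ι → ZMod 2) (E : Finset ((ι → ZMod 4) × (ι → ZMod 4) × (ι → ZMod 4))) :
    (univ.filter (fun μ : Lab ι => tri s μ ∈ E)).card = E.card * 4 ^ Fintype.card ι := by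
  rw [Finset.card_eq_sum_card_fiberwise (f := tri s) (t := E)]
  · rw [Finset.sum_const_nat (m := 4 ^ Fintype.card ι)]
    intro v hv
    rw [← card_fibre_tri s v]
    congr 1
    ext μ
    simp only [Finset.mem_filter, Finset.mem_univ, true_and]
    constructor
    · rintro ⟨_, h⟩; exact h
    · intro h; exact ⟨by rw [h]; exact hv, h⟩
  · intro μ hμ
    simpa using hμ

theorem card_one_mem (s : ι → ZMod 2) (S : Finset (ι → ZMod 4)) :
    (univ.filter (fun μ : Lab ι => (tri s μ).1 ∈ S)).card = S.card * 64 ^ Fintype.card ι := by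
  rw [Finset.card_eq_sum_card_fiberwise (f := fun μ => (tri s μ).1) (t := S)]
  · rw [Finset.sum_const_nat (m := 64 ^ Fintype.card ι)]
    intro v hv
    rw [← card_fibre_one s v]
    congr 1
    ext μ
    simp only [Finset.mem_filter, Finset.mem_univ, true_and]
    constructor
    · rintro ⟨_, h⟩; exact h
    · intro h; exact ⟨by rw [h]; exact hv, h⟩
  · intro μ hμ
    simpa using hμ

theorem card_Lab : Fintype.card (Lab ι) = 256 ^ Fintype.card ι := by
  rw [Fintype.card_fun, Fintype.card_fun, ZMod.card, Fintype.card_fin]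
  norm_num

theorem card_lab_mem (M : Form G ι) (d : G) (T : Finset (Lab ι)) :
    (univ.filter (fun p : G × G => M.lab d p ∈ T)).card =
      ∑ μ ∈ T, (univ.filter (fun p : G × G => M.lab d p = μ)).card := by
  rw [Finset.card_eq_sum_card_fiberwise (f := M.lab d) (t := T)]
  · apply Finset.sum_congr rfl
    intro μ hμ
    congr 1
    ext p
    simp only [Finset.mem_filter, Finset.mem_univ, true_and]
    constructor
    · rintro ⟨_, h⟩; exact h
    · intro h; exact ⟨by rw [h]; exact hμ, h⟩
  · intro p hp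
    simpa using hp

/-- The set of points with cocycle value in `S`. -/
def Form.set (M : Form G ι) (S : Finset (ι → ZMod 4)) : Finset (G × G) :=
  univ.filter (fun p => M.zeta p.1 p.2 ∈ S)

theorem set_card_ge (M : Form G ι) (S : Finset (ι → ZMod 4)) (d : G) (hd : d ≠ 0) (q : ℝ)
    (hq : 0 ≤ q) (hG : (Fintype.card G : ℝ) = q ^ 2) :
    (S.card : ℝ) / 4 ^ Fintype.card ι * q ^ 4 - S.card * 64 ^ Fintype.card ι * q ^ 3 ≤
      ((M.set S).card : ℝ) := by
  have h1 : M.set S = univ.filter (fun p : G × G => M.lab d p ∈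
      univ.filter (fun μ : Lab ι => (tri (M.m d d) μ).1 ∈ S)) := by
    ext p
    simp only [Form.set, Finset.mem_filter, Finset.mem_univ, true_and]
    rw [show M.lab d p = M.lab d (p.1, p.2) from rfl, tri_lab]
  rw [h1, card_lab_mem]
  push_cast
  have h2 : ∀ μ ∈ univ.filter (fun μ : Lab ι => (tri (M.m d d) μ).1 ∈ S),
      q ^ 4 / (256 : ℝ) ^ Fintype.card ι - q ^ 3 ≤
        ((univ.filter (fun p : G × G => M.lab d p = μ)).card : ℝ) := by
    intro μ _
    have h3 := M.equi d hd q hq hG μ
    rw [card_Lab] at h3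
    push_cast at h3
    have := (abs_le.mp h3).1
    linarith
  refine le_trans ?_ (Finset.sum_le_sum h2)
  rw [Finset.sum_const, card_one_mem, nsmul_eq_mul]
  push_cast
  have h4 : (256 : ℝ) ^ Fintype.card ι = 4 ^ Fintype.card ι * 64 ^ Fintype.card ι := by
    rw [← mul_pow]; norm_num
  rw [h4]
  have h5 : (0 : ℝ) < 4 ^ Fintype.card ι := by positivity
  have h6 : (0 : ℝ) < 64 ^ Fintype.card ι := by positivity
  apply le_of_eq
  field_simp

theorem squares_card_le (M : Form G ι) (S : Finset (ι → ZMod 4)) (d : G) (hd : d ≠ 0) (q : ℝ)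
    (hq : 0 ≤ q) (hG : (Fintype.card G : ℝ) = q ^ 2) :
    ((univ.filter (fun p : G × G => (p.1, p.2) ∈ M.set S ∧ (p.1, p.2 + d) ∈ M.set S ∧
        (p.1 + d, p.2) ∈ M.set S ∧ (p.1 + d, p.2 + d) ∈ M.set S)).card : ℝ) ≤
      ((quad S).card : ℝ) / 64 ^ Fintype.card ι * q ^ 4 +
        (quad S).card * 4 ^ Fintype.card ι * q ^ 3 := by
  have h1 : univ.filter (fun p : G × G => (p.1, p.2) ∈ M.set S ∧ (p.1, p.2 + d) ∈ M.set S ∧
        (p.1 + d, p.2) ∈ M.set S ∧ (p.1 + d, p.2 + d) ∈ M.set S) ⊆
      univ.filter (fun p : G × G => M.lab d p ∈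
        univ.filter (fun μ : Lab ι => tri (M.m d d) μ ∈ quad S)) := by
    intro p hp
    simp only [Form.set, Finset.mem_filter, Finset.mem_univ, true_and] at hp ⊢
    rw [show M.lab d p = M.lab d (p.1, p.2) from rfl, tri_lab]
    simp only [quad, Finset.mem_filter, Finset.mem_univ, true_and]
    refine ⟨hp.1, hp.2.2.1, hp.2.1, ?_⟩
    have := zeta_sum M d p.1 p.2
    have h2 : -(M.zeta p.1 p.2 + (M.zeta (p.1 + d) p.2 + M.zeta p.1 (p.2 + d))) =
        M.zeta (p.1 + d) (p.2 + d) := by
      rw [neg_eq_iff_add_eq_zero, ← this]; ring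
    have h3 : -(M.zeta p.1 p.2 + M.zeta (p.1 + d) p.2 + M.zeta p.1 (p.2 + d)) =
        M.zeta (p.1 + d) (p.2 + d) := by
      rw [← h2]; ring
    rw [h3]
    exact hp.2.2.2
  have h0 : ((univ.filter (fun p : G × G => (p.1, p.2) ∈ M.set S ∧ (p.1, p.2 + d) ∈ M.set S ∧
        (p.1 + d, p.2) ∈ M.set S ∧ (p.1 + d, p.2 + d) ∈ M.set S)).card : ℝ) ≤
      ((univ.filter (fun p : G × G => M.lab d p ∈
        univ.filter (fun μ : Lab ι => tri (M.m d d) μ ∈ quad S))).card : ℝ) := by
    exact_mod_cast Finset.card_le_card h1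
  refine h0.trans ?_
  rw [card_lab_mem]
  push_cast
  have h2 : ∀ μ ∈ univ.filter (fun μ : Lab ι => tri (M.m d d) μ ∈ quad S),
      ((univ.filter (fun p : G × G => M.lab d p = μ)).card : ℝ) ≤
        q ^ 4 / (256 : ℝ) ^ Fintype.card ι + q ^ 3 := by
    intro μ _
    have h3 := M.equi d hd q hq hG μ
    rw [card_Lab] at h3
    push_cast at h3
    have := (abs_le.mp h3).2
    linarith
  refine le_trans (Finset.sum_le_sum h2) ?_
  rw [Finset.sum_const, card_tri_mem, nsmul_eq_mul]
  push_cast
  have h4 : (256 : ℝ) ^ Fintype.card ι = 4 ^ Fintype.card ι * 64 ^ Fintype.card ι := by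
    rw [← mul_pow]; norm_num
  rw [h4]
  have h5 : (0 : ℝ) < 4 ^ Fintype.card ι := by positivity
  have h6 : (0 : ℝ) < 64 ^ Fintype.card ι := by positivity
  apply le_of_eq
  field_simp

end Pool.Agent.H36Sq
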