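import Pool.Agent.H36Sq.Basic

/-!
Equidistribution of a family of `ZMod 2` valued labels from character sum bounds.
-/

namespace Pool.Agent.H36Sq

open Finset

variable {ι : Type*} [Fintype ι] [DecidableEq ι]

/-- The label space: eight bits for every index. -/
abbrev Lab (ι : Type*) := ι → Fin 8 → ZMod 2

/-- The pairing on the label space. -/
def dot (φ μ : Lab ι) : ZMod 2 := ∑ i, ∑ j, φ i j * μ i j

theorem dot_add_left (φ φ' μ : Lab ι) : dot (φ + φ') μ = dot φ μ + dot φ' μ := by
  simp [dot, add_mul, Finset.sum_add_distrib]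

theorem dot_add_right (φ μ μ' : Lab ι) : dot φ (μ + μ') = dot φ μ + dot φ μ' := by
  simp [dot, mul_add, Finset.sum_add_distrib]

theorem dot_zero_left (μ : Lab ι) : dot 0 μ = 0 := by simp [dot]
theorem dot_zero_right (φ : Lab ι) : dot φ 0 = 0 := by simp [dot]

theorem exists_dot_ne (μ : Lab ι) (h : μ ≠ 0) : ∃ φ : Lab ι, dot φ μ ≠ 0 := by
  obtain ⟨i, hi⟩ : ∃ i, μ i ≠ 0 := by
    by_contra hcon
    push Not at hcon
    exact h (funext hcon)
  obtain ⟨j, hj⟩ : ∃ j, μ i j ≠ 0 := by
    by_contra hcon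
    push Not at hcon
    exact hi (funext hcon)
  refine ⟨fun i' j' => if i' = i ∧ j' = j then 1 else 0, ?_⟩
  have : dot (fun i' j' => if i' = i ∧ j' = j then 1 else 0) μ = μ i j := by
    unfold dot
    rw [Finset.sum_eq_single i, Finset.sum_eq_single j]
    · simp
    · intro j' _ hne; simp [hne]
    · intro hn; exact absurd (Finset.mem_univ _) hn
    · intro i' _ hne
      apply Finset.sum_eq_zero
      intro j' _; simp [hne]
    · intro hn; exact absurd (Finset.mem_univ _) hn
  rw [this]; exact hj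

theorem sum_sg_dot (μ : Lab ι) :
    ∑ φ : Lab ι, sg (dot φ μ) = if μ = 0 then (Fintype.card (Lab ι) : ℝ) else 0 := by
  split_ifs with h
  · subst h
    simp [dot_zero_right, sg_zero]
  · exact sum_sg_hom (fun φ => dot φ μ) (fun x y => dot_add_left x y μ) (exists_dot_ne μ h)

theorem count_bound {P : Type*} [Fintype P] (Λ : P → Lab ι) (B : ℝ) (hB0 : 0 ≤ B)
    (hB : ∀ φ : Lab ι, φ ≠ 0 → |∑ p, sg (dot φ (Λ p))| ≤ B) (μ : Lab ι) :
    |((univ.filter (fun p => Λ p = μ)).card : ℝ) -
      (Fintype.card P : ℝ) / (Fintype.card (Lab ι) : ℝ)| ≤ B := by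
  classical
  set n : ℝ := (Fintype.card (Lab ι) : ℝ) with hn
  have hnpos : 0 < n := by
    rw [hn]; exact_mod_cast Fintype.card_pos
  have key : n * ((univ.filter (fun p => Λ p = μ)).card : ℝ) =
      ∑ φ : Lab ι, sg (dot φ μ) * ∑ p, sg (dot φ (Λ p)) := by
    have h1 : ∀ p, (if Λ p = μ then n else 0) = ∑ φ : Lab ι, sg (dot φ (Λ p + μ)) := by
      intro p
      rw [sum_sg_dot]
      have : (Λ p + μ = 0) ↔ Λ p = μ := by
        constructor
        · intro h
          have h2 : μ + μ = 0 := by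
            funext i j; have : ∀ a : ZMod 2, a + a = 0 := by decide
            exact this _
          have h3 : Λ p + μ + μ = μ := by rw [h, zero_add]
          rwa [add_assoc, h2, add_zero] at h3
        · intro h
          rw [h]; funext i j; have : ∀ a : ZMod 2, a + a = 0 := by decide
          exact this _
      by_cases hp : Λ p = μ
      · rw [if_pos hp, if_pos (this.mpr hp)]
      · rw [if_neg hp, if_neg (fun h => hp (this.mp h))]
    have h2 : n * ((univ.filter (fun p => Λ p = μ)).card : ℝ) =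
        ∑ p, (if Λ p = μ then n else 0) := by
      rw [← Finset.sum_filter, Finset.sum_const, nsmul_eq_mul]; ring
    rw [h2]
    simp_rw [h1, dot_add_right, sg_add]
    rw [Finset.sum_comm]
    apply Finset.sum_congr rfl
    intro φ _
    rw [Finset.mul_sum]
    apply Finset.sum_congr rfl
    intro p _; ring
  have h0 : sg (dot (0 : Lab ι) μ) * ∑ p, sg (dot (0 : Lab ι) (Λ p)) = (Fintype.card P : ℝ) := by
    simp [dot_zero_left, sg_zero]
  have hsplit : ∑ φ : Lab ι, sg (dot φ μ) * ∑ p, sg (dot φ (Λ p)) =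
      (Fintype.card P : ℝ) + ∑ φ ∈ univ.erase (0 : Lab ι), sg (dot φ μ) *
        ∑ p, sg (dot φ (Λ p)) := by
    rw [← h0, ← Finset.add_sum_erase _ _ (Finset.mem_univ (0 : Lab ι))]
  have hrest : |∑ φ ∈ univ.erase (0 : Lab ι), sg (dot φ μ) * ∑ p, sg (dot φ (Λ p))| ≤ n * B := by
    refine (Finset.abs_sum_le_sum_abs _ _).trans ?_
    have : ∀ φ ∈ univ.erase (0 : Lab ι), |sg (dot φ μ) * ∑ p, sg (dot φ (Λ p))| ≤ B := by
      intro φ hφ
      rw [abs_mul, abs_sg, one_mul]
      exact hB φ (Finset.ne_of_mem_erase hφ)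
    refine (Finset.sum_le_sum this).trans ?_
    rw [Finset.sum_const, nsmul_eq_mul]
    apply mul_le_mul_of_nonneg_right _ hB0
    rw [hn]
    exact_mod_cast Finset.card_le_univ _
  have hfin : n * (((univ.filter (fun p => Λ p = μ)).card : ℝ) - (Fintype.card P : ℝ) / n) =
      ∑ φ ∈ univ.erase (0 : Lab ι), sg (dot φ μ) * ∑ p, sg (dot φ (Λ p)) := by
    rw [mul_sub, key, hsplit]
    field_simp
    ring
  rw [← hfin, abs_mul, abs_of_pos hnpos] at hrest
  exact le_of_mul_le_mul_left hrest hnpos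

end Pool.Agent.H36Sq
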