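import Pool.Agent.H36Sq.Count

/-!
Forms over finite fields with `2^t` elements, `t` odd.
-/

namespace Pool.Agent.H36Sq

open Finset

section field

variable {F : Type*} [Field F] [Fintype F] [CharP F 2]

theorem two_pow_odd_mod (t : ℕ) (ht : Odd t) : ¬ 3 ∣ 2 ^ t - 1 := by
  obtain ⟨s, rfl⟩ := ht
  intro h
  have h1 : 2 ^ (2 * s + 1) % 3 = 2 := by
    rw [pow_succ, pow_mul, Nat.mul_mod, Nat.pow_mod]
    simp
  have h2 : 1 ≤ 2 ^ (2 * s + 1) := Nat.one_le_two_pow
  generalize 2 ^ (2 * s + 1) = m at *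
  omega

theorem no_root (t : ℕ) (ht : Odd t) (hF : Fintype.card F = 2 ^ t) (r : F) :
    r ^ 2 + r + 1 ≠ 0 := by
  intro h
  have h3 : r ^ 3 = 1 := by
    have : r ^ 3 - 1 = (r - 1) * (r ^ 2 + r + 1) := by ring
    rw [h, mul_zero] at this
    exact sub_eq_zero.mp this
  have hr0 : r ≠ 0 := by
    rintro rfl; simp at h
  have hr1 : r ≠ 1 := by
    rintro rfl
    have h2 : (2 : F) = 0 := CharTwo.two_eq_zero
    have : (1 : F) ^ 2 + 1 + 1 = 1 := by
      have : (1 : F) ^ 2 + 1 + 1 = 2 + 1 := by norm_num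
      rw [this, h2, zero_add]
    rw [this] at h
    exact one_ne_zero h
  have hord : orderOf r = 3 := by
    apply orderOf_eq_prime h3 hr1
  have hdvd : orderOf r ∣ Fintype.card F - 1 := by
    apply orderOf_dvd_of_pow_eq_one
    exact FiniteField.pow_card_sub_one_eq_one r hr0
  rw [hord, hF] at hdvd
  exact two_pow_odd_mod t ht hdvd

theorem norm_ne_zero (t : ℕ) (ht : Odd t) (hF : Fintype.card F = 2 ^ t) (a b : F)
    (h : a ≠ 0 ∨ b ≠ 0) : a ^ 2 + a * b + b ^ 2 ≠ 0 := by
  intro h0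
  by_cases hb : b = 0
  · subst hb
    simp at h0
    simp [h0] at h
  · apply no_root t ht hF (a / b)
    field_simp
    linear_combination h0

end field

/-- The form on `F × F`. -/
noncomputable def fieldForm {F : Type*} [Field F] [Fintype F] [CharP F 2] (t : ℕ) (ht : Odd t)
    (hF : Fintype.card F = 2 ^ t) {ι : Type*} [Fintype ι] [DecidableEq ι] (π : F → ι → ZMod 2)
    (hπ : ∀ a b i, π (a + b) i = π a i + π b i) (hsurj : Function.Surjective π) :
    Form (F × F) ι where
  m x y := π (x.1 * y.1 + x.1 * y.2 + x.2 * y.2)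
  add_left x x' y i := by
    rw [← hπ]; congr 1
    simp only [Prod.fst_add, Prod.snd_add]; ring_nf
  add_right x y y' i := by
    rw [← hπ]; congr 1
    simp only [Prod.fst_add, Prod.snd_add]; ring_nf
  nondeg h hh f f' hf := by
    have hD : h.1 ^ 2 + h.1 * h.2 + h.2 ^ 2 ≠ 0 := by
      apply norm_ne_zero t ht hF
      by_contra hcon
      push Not at hcon
      exact hh (Prod.ext hcon.1 hcon.2)
    have h2 : (2 : F) = 0 := CharTwo.two_eq_zero
    -- any pair of values is attained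
    have hsol : ∀ u u' : F, ∃ y : F × F,
        h.1 * y.1 + h.1 * y.2 + h.2 * y.2 = u ∧ y.1 * h.1 + y.1 * h.2 + y.2 * h.2 = u' := by
      intro u u'
      refine ⟨((h.2 * u + (h.1 + h.2) * u') / (h.1 ^ 2 + h.1 * h.2 + h.2 ^ 2),
        ((h.1 + h.2) * u + h.1 * u') / (h.1 ^ 2 + h.1 * h.2 + h.2 ^ 2)), ?_, ?_⟩
      · rw [← mul_div_assoc, ← mul_div_assoc, ← mul_div_assoc, ← add_div, ← add_div,
          div_eq_iff hD]
        linear_combination (h.1 * h.2 * u + h.1 ^ 2 * u' + h.1 * h.2 * u') * h2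
      · rw [div_mul_eq_mul_div, div_mul_eq_mul_div, div_mul_eq_mul_div, ← add_div, ← add_div,
          div_eq_iff hD]
        linear_combination (h.1 * h.2 * u + h.2 ^ 2 * u + h.1 * h.2 * u') * h2
    -- a value with nonzero functional
    have hval : ∀ g : ι → ZMod 2, g ≠ 0 → ∃ u : F, ∑ i, g i * π u i ≠ 0 := by
      intro g hg
      obtain ⟨i, hi⟩ : ∃ i, g i ≠ 0 := by
        by_contra hcon
        push Not at hcon
        exact hg (funext hcon)
      obtain ⟨u, hu⟩ := hsurj (fun i' => if i' = i then 1 else 0)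
      refine ⟨u, ?_⟩
      rw [hu]
      simp [hi]
    have hπ0 : ∀ i, π 0 i = 0 := by
      intro i
      have := hπ 0 0 i
      simpa using this
    rcases hf with hf | hf
    · obtain ⟨u, hu⟩ := hval f hf
      obtain ⟨y, hy1, hy2⟩ := hsol u 0
      refine ⟨y, ?_⟩
      rw [hy1, hy2]
      simpa [hπ0] using hu
    · obtain ⟨u, hu⟩ := hval f' hf
      obtain ⟨y, hy1, hy2⟩ := hsol 0 u
      refine ⟨y, ?_⟩
      rw [hy1, hy2]
      simpa [hπ0] using hu

/-- Transport of a form along an additive equivalence. -/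
def Form.transport {G H ι : Type*} [AddCommGroup G] [AddCommGroup H] [Fintype ι]
    (M : Form H ι) (e : G ≃+ H) : Form G ι where
  m x y := M.m (e x) (e y)
  add_left x x' y i := by rw [map_add]; exact M.add_left _ _ _ _
  add_right x y y' i := by rw [map_add]; exact M.add_right _ _ _ _
  nondeg h hh f f' hf := by
    obtain ⟨y, hy⟩ := M.nondeg (e h) (by simpa using hh) f f' hf
    refine ⟨e.symm y, ?_⟩
    simpa using hy

/-- Forms exist on `(ZMod 2)^(2t)` for odd `t ≥ |ι|`. -/
theorem exists_form (ι : Type*) [Fintype ι] [DecidableEq ι] (t : ℕ) (ht : Odd t)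
    (hι : Fintype.card ι ≤ t) : Nonempty (Form (Fin (2 * t) → ZMod 2) ι) := by
  classical
  have : Fact (Nat.Prime 2) := ⟨Nat.prime_two⟩
  have ht0 : t ≠ 0 := by
    rcases ht with ⟨s, rfl⟩; omega
  let F := GaloisField 2 t
  let _ : Fintype F := Fintype.ofFinite F
  have hF : Fintype.card F = 2 ^ t := by
    rw [← Nat.card_eq_fintype_card]
    exact GaloisField.card 2 t ht0
  have hfin : Module.finrank (ZMod 2) F = t := GaloisField.finrank 2 ht0
  have : Module.Finite (ZMod 2) F := inferInstance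
  -- a surjection onto `(ZMod 2)^ι`
  obtain ⟨g, hg⟩ : ∃ g : F →ₗ[ZMod 2] (ι → ZMod 2), Function.Surjective g := by
    obtain ⟨j, hj⟩ : ∃ j : (ι → ZMod 2) →ₗ[ZMod 2] F, Function.Injective j := by
      have hle : Module.finrank (ZMod 2) (ι → ZMod 2) ≤ Module.finrank (ZMod 2) F := by
        rw [hfin, Module.finrank_fintype_fun_eq_card]; exact hι
      obtain ⟨j, hj⟩ := finrank_le_iff_exists_linearMap.mp hle
      exact ⟨j, hj⟩
    obtain ⟨g, hg⟩ := j.exists_leftInverse_of_injective (LinearMap.ker_eq_bot.mpr hj)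
    refine ⟨g, fun y => ⟨j y, ?_⟩⟩
    have := LinearMap.congr_fun hg y
    simpa using this
  have M : Form (F × F) ι := fieldForm t ht hF (fun a => g a)
    (fun a b i => by simp) hg
  have e : (Fin (2 * t) → ZMod 2) ≃ₗ[ZMod 2] (F × F) := by
    apply LinearEquiv.ofFinrankEq
    rw [Module.finrank_prod, hfin, Module.finrank_fintype_fun_eq_card, Fintype.card_fin]
    ring
  exact ⟨M.transport e.toAddEquiv⟩

end Pool.Agent.H36Sq
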