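import Pool.Agent.H36Sq.Equi

/-!
The labels attached to a biadditive form and their equidistribution.
-/

namespace Pool.Agent.H36Sq

open Finset

variable {ι : Type*} [Fintype ι] [DecidableEq ι]
variable {G : Type*} [AddCommGroup G] [Fintype G] [DecidableEq G]

/-- A biadditive map `m : G × G → (ZMod 2)^ι` such that for `h ≠ 0` the map
`y ↦ (m h y, m y h)` is not annihilated by any nonzero functional. -/
structure Form (G : Type*) [AddCommGroup G] (ι : Type*) [Fintype ι] where
  m : G → G → ι → ZMod 2
  add_left : ∀ x x' y i, m (x + x') y i = m x y i + m x' y i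
  add_right : ∀ x y y' i, m x (y + y') i = m x y i + m x y' i
  nondeg : ∀ h, h ≠ 0 → ∀ f f' : ι → ZMod 2, (f ≠ 0 ∨ f' ≠ 0) →
    ∃ y, ∑ i, (f i * m h y i + f' i * m y h i) ≠ 0

/-- The eight labels. -/
def Form.lab (M : Form G ι) (d : G) (p : G × G) : Lab ι := fun i =>
  ![M.m p.1 d i, M.m d p.1 i, M.m d p.2 i, M.m p.2 d i, M.m p.1 p.1 i, M.m p.2 p.2 i,
    M.m p.1 p.2 i + M.m p.2 p.1 i, M.m p.1 p.2 i]

theorem z2_add_self (a : ZMod 2) : a + a = 0 := by revert a; decide

/-- functional attached to a pair of weight vectors. -/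
theorem Form.sum_sg_zero (M : Form G ι) (h : G) (hh : h ≠ 0) (f f' : ι → ZMod 2)
    (hf : f ≠ 0 ∨ f' ≠ 0) : ∑ y, sg (∑ i, (f i * M.m h y i + f' i * M.m y h i)) = 0 := by
  apply sum_sg_hom (fun y => ∑ i, (f i * M.m h y i + f' i * M.m y h i))
  · intro x y
    rw [← Finset.sum_add_distrib]
    apply Finset.sum_congr rfl
    intro i _
    rw [M.add_left, M.add_right]; ring
  · exact M.nondeg h hh f f' hf

/-- quadratic part derivative. -/
theorem Form.deriv_zero (M : Form G ι) (d : G) (f1 f2 f3 : ι → ZMod 2) (hf : f3 ≠ 0)
    (h : G) (hh : h ≠ 0) :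
    ∑ y, sg ((∑ i, (f1 i * M.m (y + h) d i + f2 i * M.m d (y + h) i +
        f3 i * M.m (y + h) (y + h) i)) +
      ∑ i, (f1 i * M.m y d i + f2 i * M.m d y i + f3 i * M.m y y i)) = 0 := by
  have key : ∀ y, (∑ i, (f1 i * M.m (y + h) d i + f2 i * M.m d (y + h) i +
        f3 i * M.m (y + h) (y + h) i)) +
      ∑ i, (f1 i * M.m y d i + f2 i * M.m d y i + f3 i * M.m y y i) =
      (∑ i, (f1 i * M.m h d i + f2 i * M.m d h i + f3 i * M.m h h i)) +
        ∑ i, (f3 i * M.m h y i + f3 i * M.m y h i) := by
    intro y
    rw [← Finset.sum_add_distrib, ← Finset.sum_add_distrib]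
    apply Finset.sum_congr rfl
    intro i _
    simp only [M.add_left, M.add_right]
    have e1 := z2_add_self (f1 i * M.m y d i)
    have e2 := z2_add_self (f2 i * M.m d y i)
    have e3 := z2_add_self (f3 i * M.m y y i)
    linear_combination e1 + e2 + e3
  simp_rw [key, sg_add (∑ i, (f1 i * M.m h d i + f2 i * M.m d h i + f3 i * M.m h h i))]
  rw [← Finset.mul_sum, M.sum_sg_zero h hh f3 f3 (Or.inl hf), mul_zero]

theorem Form.char_sum_sq (M : Form G ι) (d : G) (hd : d ≠ 0) (φ : Lab ι) (hφ : φ ≠ 0) :
    (∑ p : G × G, sg (dot φ (M.lab d p))) ^ 2 ≤ (Fintype.card G : ℝ) ^ 3 := by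
  set Q1 : G → ZMod 2 := fun x => ∑ i, (φ i 0 * M.m x d i + φ i 1 * M.m d x i +
    φ i 4 * M.m x x i) with hQ1
  set Q2 : G → ZMod 2 := fun y => ∑ i, (φ i 3 * M.m y d i + φ i 2 * M.m d y i +
    φ i 5 * M.m y y i) with hQ2
  set b : G → G → ZMod 2 := fun x y => ∑ i, (φ i 6 * M.m y x i +
    (φ i 6 + φ i 7) * M.m x y i) with hb
  have hdot : ∀ x y, dot φ (M.lab d (x, y)) = Q1 x + (Q2 y + b x y) := by
    intro x y
    simp only [dot, hQ1, hQ2, hb, Form.lab]
    rw [← Finset.sum_add_distrib, ← Finset.sum_add_distrib]
    apply Finset.sum_congr rfl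
    intro i _
    simp only [Fin.sum_univ_eight]
    simp
    ring
  rw [Fintype.sum_prod_type]
  simp_rw [hdot]
  have hb2 : ∀ x y y', b x (y + y') = b x y + b x y' := by
    intro x y y'
    simp only [hb]
    rw [← Finset.sum_add_distrib]
    apply Finset.sum_congr rfl
    intro i _
    rw [M.add_left, M.add_right]; ring
  by_cases h5 : (fun i => φ i 5) = 0
  · by_cases h67 : ((fun i => φ i 6) ≠ 0 ∨ (fun i => φ i 6 + φ i 7) ≠ 0)
    · apply double_sq_le Q1 Q2 b hb2
      intro h hh
      left
      simp only [hb]
      exact M.sum_sg_zero h hh (fun i => φ i 6) (fun i => φ i 6 + φ i 7) h67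
    · push Not at h67
      have hb0 : ∀ x y, b x y = 0 := by
        intro x y
        simp only [hb]
        apply Finset.sum_eq_zero
        intro i _
        have e1 := congrFun h67.1 i
        have e2 := congrFun h67.2 i
        simp only [Pi.zero_apply] at e1 e2
        rw [e1, ← e1, e2]; simp [e1]
      have h7 : ∀ i, φ i 7 = 0 := by
        intro i
        have e1 := congrFun h67.1 i
        have e2 := congrFun h67.2 i
        simp only [Pi.zero_apply] at e1 e2
        rw [e1, zero_add] at e2; exact e2
      simp only [hb0]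
      by_cases h4 : (fun i => φ i 4) = 0
      · -- linear phases
        have hz : (∑ x, sg (Q1 x)) * (∑ y, sg (Q2 y)) = 0 := by
          by_cases h01 : ((fun i => φ i 1) ≠ 0 ∨ (fun i => φ i 0) ≠ 0)
          · have : ∑ x, sg (Q1 x) = 0 := by
              have e : ∀ x, Q1 x = ∑ i, (φ i 1 * M.m d x i + φ i 0 * M.m x d i) := by
                intro x
                simp only [hQ1]
                apply Finset.sum_congr rfl
                intro i _
                have := congrFun h4 i
                simp only [Pi.zero_apply] at this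
                rw [this]; ring
              simp_rw [e]
              exact M.sum_sg_zero d hd (fun i => φ i 1) (fun i => φ i 0) h01
            rw [this, zero_mul]
          · push Not at h01
            have h23 : ((fun i => φ i 2) ≠ 0 ∨ (fun i => φ i 3) ≠ 0) := by
              by_contra hcon
              push Not at hcon
              apply hφ
              funext i j
              have a0 := congrFun h01.2 i
              have a1 := congrFun h01.1 i
              have a2 := congrFun hcon.1 i
              have a3 := congrFun hcon.2 i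
              have a4 := congrFun h4 i
              have a5 := congrFun h5 i
              have a6 := congrFun h67.1 i
              have a7 := h7 i
              fin_cases j <;> simp_all
            have : ∑ y, sg (Q2 y) = 0 := by
              have e : ∀ y, Q2 y = ∑ i, (φ i 2 * M.m d y i + φ i 3 * M.m y d i) := by
                intro y
                simp only [hQ2]
                apply Finset.sum_congr rfl
                intro i _
                have := congrFun h5 i
                simp only [Pi.zero_apply] at this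
                rw [this]; ring
              simp_rw [e]
              exact M.sum_sg_zero d hd (fun i => φ i 2) (fun i => φ i 3) h23
            rw [this, mul_zero]
        have e : ∑ x, ∑ y, sg (Q1 x + (Q2 y + 0)) = (∑ x, sg (Q1 x)) * (∑ y, sg (Q2 y)) := by
          rw [Finset.sum_mul_sum]
          simp only [add_zero, sg_add]
        rw [e, hz]
        have h0 : (0 : ℝ) ≤ (Fintype.card G : ℝ) ^ 3 := by positivity
        calc (0 : ℝ) ^ 2 = 0 := by norm_num
          _ ≤ _ := h0
      · -- quadratic in `x`
        rw [Finset.sum_comm]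
        have e : ∑ y, ∑ x, sg (Q1 x + (Q2 y + 0)) = ∑ y, ∑ x, sg (Q2 y + (Q1 x + 0)) := by
          apply Finset.sum_congr rfl
          intro y _
          apply Finset.sum_congr rfl
          intro x _
          congr 1; ring
        rw [e]
        apply double_sq_le Q2 Q1 (fun _ _ => 0)
        · intro _ _ _; simp
        · intro h hh
          right
          exact M.deriv_zero d (fun i => φ i 0) (fun i => φ i 1) (fun i => φ i 4) h4 h hh
  · apply double_sq_le Q1 Q2 b hb2
    intro h hh
    right
    exact M.deriv_zero d (fun i => φ i 3) (fun i => φ i 2) (fun i => φ i 5) h5 h hh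

/-- Equidistribution of the eight labels. -/
theorem Form.equi (M : Form G ι) (d : G) (hd : d ≠ 0) (q : ℝ) (hq : 0 ≤ q)
    (hG : (Fintype.card G : ℝ) = q ^ 2) (μ : Lab ι) :
    |((univ.filter (fun p : G × G => M.lab d p = μ)).card : ℝ) -
      q ^ 4 / (Fintype.card (Lab ι) : ℝ)| ≤ q ^ 3 := by
  have h := count_bound (M.lab d) (q ^ 3) (by positivity) (by
    intro φ hφ
    apply abs_le_of_sq_le_sq _ (by positivity)
    refine (M.char_sum_sq d hd φ hφ).trans ?_
    rw [hG]; apply le_of_eq; ring) μ
  have hc : (Fintype.card (G × G) : ℝ) = q ^ 4 := by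
    rw [Fintype.card_prod]; push_cast; rw [hG]; ring
  rw [hc] at h
  exact h

end Pool.Agent.H36Sq
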