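import Pool.Agent.H36Sq.Field

/-!
Valid exponents and the general lower bound.
-/

namespace Pool.Agent.H36Sq

open Finset

/-- The number of squares with difference `d` in `A`. -/
def squareCount {n : ℕ} (A : Finset ((Fin n → ZMod 2) × (Fin n → ZMod 2)))
    (d : Fin n → ZMod 2) : ℕ :=
  (univ.filter (fun p : (Fin n → ZMod 2) × (Fin n → ZMod 2) =>
    (p.1, p.2) ∈ A ∧ (p.1, p.2 + d) ∈ A ∧ (p.1 + d, p.2) ∈ A ∧ (p.1 + d, p.2 + d) ∈ A)).card

/-- `c` is a valid exponent for squares. -/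
def ValidExponent (c : ℝ) : Prop :=
  ∃ K : ℝ, 0 < K ∧ ∀ α : ℝ, 0 < α → α < 1 → ∃ n₀ : ℕ, ∀ n : ℕ, 1 ≤ n → n₀ ≤ n →
    ∀ A : Finset ((Fin n → ZMod 2) × (Fin n → ZMod 2)),
      α * ((2 : ℝ) ^ n) ^ 2 ≤ (A.card : ℝ) →
      ∃ d : Fin n → ZMod 2, d ≠ 0 ∧ K * α ^ c * ((2 : ℝ) ^ n) ^ 2 ≤ (squareCount A d : ℝ)

variable {κ : Type*} [Fintype κ] [DecidableEq κ]

/-- The `m`-fold power of `S`. -/
def spow (m : ℕ) (S : Finset (κ → ZMod 4)) : Finset (Fin m × κ → ZMod 4) :=
  univ.filter (fun v => ∀ j, (fun i => v (j, i)) ∈ S)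

theorem card_spow (m : ℕ) (S : Finset (κ → ZMod 4)) : (spow m S).card = S.card ^ m := by
  have h : (Fintype.piFinset (fun _ : Fin m => S)).card = S.card ^ m := by
    rw [Fintype.card_piFinset]; simp
  rw [← h]
  apply Finset.card_bij (fun v _ => fun j i => v (j, i))
  · intro v hv
    simp only [spow, Finset.mem_filter, Finset.mem_univ, true_and] at hv
    rw [Fintype.mem_piFinset]
    exact hv
  · intro v _ w _ hvw
    funext ⟨j, i⟩
    exact congrFun (congrFun hvw j) i
  · intro w hw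
    rw [Fintype.mem_piFinset] at hw
    refine ⟨fun p => w p.1 p.2, ?_, rfl⟩
    simp only [spow, Finset.mem_filter, Finset.mem_univ, true_and]
    exact hw

theorem card_quad_spow (m : ℕ) (S : Finset (κ → ZMod 4)) :
    (quad (spow m S)).card ≤ (quad S).card ^ m := by
  have h : (Fintype.piFinset (fun _ : Fin m => quad S)).card = (quad S).card ^ m := by
    rw [Fintype.card_piFinset]; simp
  rw [← h]
  apply Finset.card_le_card_of_injOn
    (fun v => fun j => ((fun i => v.1 (j, i)), (fun i => v.2.1 (j, i)), (fun i => v.2.2 (j, i))))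
  · intro v hv
    simp only [quad, spow, Finset.mem_filter, Finset.mem_univ, true_and, Finset.mem_coe] at hv
    rw [Finset.mem_coe, Fintype.mem_piFinset]
    intro j
    simp only [quad, Finset.mem_filter, Finset.mem_univ, true_and]
    exact ⟨hv.1 j, hv.2.1 j, hv.2.2.1 j, hv.2.2.2 j⟩
  · intro v _ w _ hvw
    have h1 := fun j => congrFun hvw j
    refine Prod.ext ?_ (Prod.ext ?_ ?_)
    · funext ⟨j, i⟩
      exact congrFun (congrArg (fun t => t.1) (h1 j)) i
    · funext ⟨j, i⟩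
      exact congrFun (congrArg (fun t => t.2.1) (h1 j)) i
    · funext ⟨j, i⟩
      exact congrFun (congrArg (fun t => t.2.2) (h1 j)) i

theorem quad_nonempty (S : Finset (κ → ZMod 4)) (hS : S.Nonempty) : 0 < (quad S).card := by
  obtain ⟨x, hx⟩ := hS
  apply Finset.card_pos.mpr
  refine ⟨(x, x, x), ?_⟩
  simp only [quad, Finset.mem_filter, Finset.mem_univ, true_and]
  refine ⟨hx, hx, hx, ?_⟩
  have : -(x + x + x) = x := by
    funext i
    have h4 : ∀ a : ZMod 4, -(a + a + a) = a := by decide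
    exact h4 (x i)
  rw [this]; exact hx

/-- The main lower bound: every valid exponent `c` satisfies `a ^ c ≤ T` for the density `a`
and the normalized number `T` of zero sum quadruples of any `S ⊆ (ZMod 4)^κ`. -/
theorem le_of_valid (c : ℝ) (hc : ValidExponent c) (S : Finset (κ → ZMod 4)) (hS : S.Nonempty)
    (hS1 : (S.card : ℝ) < 4 ^ Fintype.card κ) :
    ((S.card : ℝ) / 4 ^ Fintype.card κ) ^ c ≤ ((quad S).card : ℝ) / 64 ^ Fintype.card κ := by
  classical
  obtain ⟨K, hK, hval⟩ := hc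
  set a : ℝ := (S.card : ℝ) / 4 ^ Fintype.card κ with ha
  set T : ℝ := ((quad S).card : ℝ) / 64 ^ Fintype.card κ with hT
  have ha0 : 0 < a := by
    rw [ha]
    have : 0 < S.card := Finset.card_pos.mpr hS
    positivity
  have ha1 : a < 1 := by
    rw [ha, div_lt_one (by positivity)]; exact hS1
  have hT0 : 0 < T := by
    rw [hT]
    have : 0 < (quad S).card := quad_nonempty S hS
    positivity
  by_contra hcon
  push Not at hcon
  -- the key inequality for every `m`
  have key : ∀ m : ℕ, K * (1 / 2 : ℝ) ^ c * (a ^ c) ^ m ≤ 2 * T ^ m := by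
    intro m
    set α : ℝ := a ^ m * (1 / 2) with hα
    have hα0 : 0 < α := by positivity
    have hα1 : α < 1 := by
      have : a ^ m ≤ 1 := pow_le_one₀ ha0.le ha1.le
      rw [hα]; linarith
    obtain ⟨n₀, hn₀⟩ := hval α hα0 hα1
    set kk : ℕ := Fintype.card (Fin m × κ) with hkk
    have hkk' : kk = m * Fintype.card κ := by
      rw [hkk, Fintype.card_prod, Fintype.card_fin]
    set R : ℝ := 2 * (4 ^ kk * 64 ^ kk) + ((quad (spow m S)).card : ℝ) * 4 ^ kk / T ^ m with hR
    obtain ⟨t0, ht0⟩ := pow_unbounded_of_one_lt R (by norm_num : (1 : ℝ) < 2)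
    set t : ℕ := 2 * (t0 + n₀ + kk) + 1 with ht
    have htodd : Odd t := ⟨t0 + n₀ + kk, by omega⟩
    obtain ⟨M⟩ := exists_form (Fin m × κ) t htodd (by omega)
    set q : ℝ := (2 : ℝ) ^ t with hq
    have hq0 : 0 < q := by positivity
    have hqR : R ≤ q := by
      refine ht0.le.trans ?_
      rw [hq]
      apply pow_le_pow_right₀ (by norm_num)
      omega
    have hcardG : (Fintype.card (Fin (2 * t) → ZMod 2) : ℝ) = q ^ 2 := by
      rw [Fintype.card_fun, ZMod.card, Fintype.card_fin, hq]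
      push_cast
      ring
    have hN : ((2 : ℝ) ^ (2 * t)) ^ 2 = q ^ 4 := by
      rw [hq]; ring
    -- a nonzero vector
    obtain ⟨d0, hd0⟩ : ∃ d : Fin (2 * t) → ZMod 2, d ≠ 0 := by
      refine ⟨fun _ => 1, ?_⟩
      intro h
      have := congrFun h ⟨0, by omega⟩
      simp at this
    have hTm : 0 < T ^ m := by positivity
    have hR1 : 2 * (4 ^ kk * 64 ^ kk) ≤ q := by
      refine le_trans ?_ hqR
      rw [hR]
      have : 0 ≤ ((quad (spow m S)).card : ℝ) * 4 ^ kk / T ^ m := by positivity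
      linarith
    have hR2 : ((quad (spow m S)).card : ℝ) * 4 ^ kk ≤ T ^ m * q := by
      have h1 : ((quad (spow m S)).card : ℝ) * 4 ^ kk / T ^ m ≤ q := by
        refine le_trans ?_ hqR
        rw [hR]
        have : (0 : ℝ) ≤ 2 * (4 ^ kk * 64 ^ kk) := by positivity
        linarith
      rw [div_le_iff₀ hTm] at h1
      linarith
    have hlow := set_card_ge M (spow m S) d0 hd0 q hq0.le hcardG
    rw [← hkk, card_spow] at hlow
    push_cast at hlow
    have ham : (S.card : ℝ) ^ m / 4 ^ kk = a ^ m := by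
      rw [ha, div_pow, hkk', ← pow_mul, mul_comm m]
    have hSm : (S.card : ℝ) ^ m = a ^ m * 4 ^ kk := by
      rw [← ham]; field_simp
    rw [ham, hSm] at hlow
    have hAcard : α * ((2 : ℝ) ^ (2 * t)) ^ 2 ≤ ((M.set (spow m S)).card : ℝ) := by
      refine le_trans ?_ hlow
      rw [hN, hα]
      have h1 : a ^ m * 4 ^ kk * 64 ^ kk * q ^ 3 ≤ a ^ m * (1 / 2) * q ^ 4 := by
        have h2 : 4 ^ kk * 64 ^ kk * q ^ 3 ≤ 1 / 2 * q ^ 4 := by
          have : (4 ^ kk * 64 ^ kk : ℝ) ≤ 1 / 2 * q := by linarith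
          calc 4 ^ kk * 64 ^ kk * q ^ 3 ≤ 1 / 2 * q * q ^ 3 :=
                mul_le_mul_of_nonneg_right this (by positivity)
            _ = 1 / 2 * q ^ 4 := by ring
        calc a ^ m * 4 ^ kk * 64 ^ kk * q ^ 3 = a ^ m * (4 ^ kk * 64 ^ kk * q ^ 3) := by ring
          _ ≤ a ^ m * (1 / 2 * q ^ 4) := mul_le_mul_of_nonneg_left h2 (by positivity)
          _ = _ := by ring
      linarith
    obtain ⟨d, hd, hdQ⟩ := hn₀ (2 * t) (by omega) (by omega) (M.set (spow m S)) hAcard
    have hup := squares_card_le M (spow m S) d hd q hq0.le hcardG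
    rw [← hkk] at hup
    have hup2 : (squareCount (M.set (spow m S)) d : ℝ) ≤ 2 * T ^ m * q ^ 4 := by
      refine le_trans hup ?_
      have h1 : ((quad (spow m S)).card : ℝ) / 64 ^ kk ≤ T ^ m := by
        rw [hT, div_pow, hkk', ← pow_mul, mul_comm m]
        apply div_le_div_of_nonneg_right _ (by positivity)
        exact_mod_cast card_quad_spow m S
      have h2 : ((quad (spow m S)).card : ℝ) / 64 ^ kk * q ^ 4 ≤ T ^ m * q ^ 4 :=
        mul_le_mul_of_nonneg_right h1 (by positivity)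
      have h3 : ((quad (spow m S)).card : ℝ) * 4 ^ kk * q ^ 3 ≤ T ^ m * q ^ 4 := by
        calc ((quad (spow m S)).card : ℝ) * 4 ^ kk * q ^ 3 ≤ T ^ m * q * q ^ 3 :=
              mul_le_mul_of_nonneg_right hR2 (by positivity)
          _ = T ^ m * q ^ 4 := by ring
      linarith
    rw [hN] at hdQ
    have h4 : K * α ^ c * q ^ 4 ≤ 2 * T ^ m * q ^ 4 := hdQ.trans hup2
    have h5 : K * α ^ c ≤ 2 * T ^ m := le_of_mul_le_mul_right h4 (by positivity)
    have h6 : α ^ c = (a ^ c) ^ m * (1 / 2 : ℝ) ^ c := by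
      rw [hα, Real.mul_rpow (by positivity) (by norm_num)]
      congr 1
      rw [← Real.rpow_natCast (a ^ c) m, ← Real.rpow_mul ha0.le, ← Real.rpow_natCast a m,
        ← Real.rpow_mul ha0.le, mul_comm]
    rw [h6] at h5
    linarith
  -- contradiction by letting `m → ∞`
  have hratio : 1 < a ^ c / T := by
    rw [lt_div_iff₀ hT0, one_mul]; exact hcon
  have hC : 0 < K * (1 / 2 : ℝ) ^ c := by positivity
  obtain ⟨m, hm⟩ := pow_unbounded_of_one_lt (2 / (K * (1 / 2 : ℝ) ^ c)) hratio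
  have h1 := key m
  have hTm : 0 < T ^ m := by positivity
  rw [div_pow, lt_div_iff₀ hTm, div_mul_eq_mul_div, div_lt_iff₀ hC] at hm
  linarith

end Pool.Agent.H36Sq
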