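import Pool.Agent.H36Sq.Gen

/-!
The sets of vectors in `(ZMod 4)^k` with few coordinates in `{2, 3}`.
-/

namespace Pool.Agent.H36Sq

open Finset

/-- The high bit of an element of `ZMod 4`. -/
def hi (x : ZMod 4) : ZMod 2 := if x = 2 ∨ x = 3 then 1 else 0

/-- Bit vectors of weight at most `r`. -/
def low (k r : ℕ) : Finset (Fin k → ZMod 2) :=
  univ.filter (fun h => (univ.filter (fun i => h i ≠ 0)).card ≤ r)

/-- Vectors with at most `r` coordinates in `{2, 3}`. -/
def wset (k r : ℕ) : Finset (Fin k → ZMod 4) :=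
  univ.filter (fun v => (fun i => hi (v i)) ∈ low k r)

theorem hi_fibre : ∀ h : ZMod 2, (univ.filter (fun x : ZMod 4 => hi x = h)).card = 2 := by
  decide +kernel

theorem quad_fibre : ∀ h1 h2 h3 h4 : ZMod 2,
    (univ.filter (fun v : ZMod 4 × ZMod 4 × ZMod 4 => hi v.1 = h1 ∧ hi v.2.1 = h2 ∧
      hi v.2.2 = h3 ∧ hi (-(v.1 + v.2.1 + v.2.2)) = h4)).card ≤
      if h1 + h2 + h3 + h4 = 0 then 2 else 6 := by
  decide +kernel

theorem card_wset (k r : ℕ) : (wset k r).card = (low k r).card * 2 ^ k := by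
  rw [wset, Finset.card_eq_sum_card_fiberwise (f := fun v : Fin k → ZMod 4 => fun i => hi (v i))
    (t := low k r)]
  · rw [Finset.sum_const_nat (m := 2 ^ k)]
    intro h hh
    have h1 : (univ.filter (fun v : Fin k → ZMod 4 => (fun i => hi (v i)) ∈ low k r)).filter
        (fun v => (fun i => hi (v i)) = h) =
        Fintype.piFinset (fun i => univ.filter (fun x : ZMod 4 => hi x = h i)) := by
      ext v
      simp only [Finset.mem_filter, Finset.mem_univ, true_and, Fintype.mem_piFinset]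
      constructor
      · rintro ⟨_, h2⟩ i
        exact congrFun h2 i
      · intro h2
        have : (fun i => hi (v i)) = h := funext h2
        rw [this]; exact ⟨hh, rfl⟩
    rw [h1, Fintype.card_piFinset]
    simp only [hi_fibre, Finset.prod_const, Finset.card_univ, Fintype.card_fin]
  · intro v hv
    simpa using hv

theorem prod_bound (k r : ℕ) (h1 h2 h3 h4 : Fin k → ZMod 2) (H1 : h1 ∈ low k r)
    (H2 : h2 ∈ low k r) (H3 : h3 ∈ low k r) (H4 : h4 ∈ low k r) :
    ∏ i, (if h1 i + h2 i + h3 i + h4 i = 0 then 2 else 6) ≤ 2 ^ k * 81 ^ r := by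
  have e : ∀ i, (if h1 i + h2 i + h3 i + h4 i = 0 then 2 else 6) =
      2 * (if h1 i + h2 i + h3 i + h4 i = 0 then 1 else 3) := by
    intro i; split_ifs <;> rfl
  simp_rw [e]
  rw [Finset.prod_mul_distrib, Finset.prod_const, Finset.card_univ, Fintype.card_fin]
  apply Nat.mul_le_mul_left
  rw [Finset.prod_ite]
  simp only [Finset.prod_const_one, one_mul, Finset.prod_const]
  have h81 : 81 ^ r = 3 ^ (4 * r) := by
    rw [pow_mul]; norm_num
  rw [h81]
  apply Nat.pow_le_pow_right (by norm_num)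
  simp only [low, Finset.mem_filter, Finset.mem_univ, true_and] at H1 H2 H3 H4
  have hsub : (univ.filter (fun i => ¬ h1 i + h2 i + h3 i + h4 i = 0)) ⊆
      (univ.filter (fun i => h1 i ≠ 0)) ∪ (univ.filter (fun i => h2 i ≠ 0)) ∪
      (univ.filter (fun i => h3 i ≠ 0)) ∪ (univ.filter (fun i => h4 i ≠ 0)) := by
    intro i hi
    simp only [Finset.mem_filter, Finset.mem_univ, true_and, Finset.mem_union] at hi ⊢
    by_contra hcon
    push Not at hcon
    obtain ⟨⟨⟨a1, a2⟩, a3⟩, a4⟩ := hcon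
    rw [a1, a2, a3, a4] at hi
    exact hi (by simp)
  have := Finset.card_le_card hsub
  have u1 := Finset.card_union_le (univ.filter (fun i => h1 i ≠ 0))
    (univ.filter (fun i => h2 i ≠ 0))
  have u2 := Finset.card_union_le ((univ.filter (fun i => h1 i ≠ 0)) ∪
    (univ.filter (fun i => h2 i ≠ 0))) (univ.filter (fun i => h3 i ≠ 0))
  have u3 := Finset.card_union_le ((univ.filter (fun i => h1 i ≠ 0)) ∪
    (univ.filter (fun i => h2 i ≠ 0)) ∪ (univ.filter (fun i => h3 i ≠ 0)))
    (univ.filter (fun i => h4 i ≠ 0))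
  omega

theorem card_quad_wset (k r : ℕ) :
    (quad (wset k r)).card ≤ (low k r).card ^ 4 * (2 ^ k * 81 ^ r) := by
  classical
  set f : (Fin k → ZMod 4) × (Fin k → ZMod 4) × (Fin k → ZMod 4) →
      (Fin k → ZMod 2) × (Fin k → ZMod 2) × (Fin k → ZMod 2) × (Fin k → ZMod 2) := fun v =>
    (fun i => hi (v.1 i), fun i => hi (v.2.1 i), fun i => hi (v.2.2 i),
      fun i => hi (-(v.1 + v.2.1 + v.2.2) i)) with hf
  have hmaps : ∀ v ∈ quad (wset k r), f v ∈ low k r ×ˢ low k r ×ˢ low k r ×ˢ low k r := by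
    intro v hv
    simp only [quad, wset, Finset.mem_filter, Finset.mem_univ, true_and] at hv
    simp only [Finset.mem_product, hf]
    exact ⟨hv.1, hv.2.1, hv.2.2.1, hv.2.2.2⟩
  rw [Finset.card_eq_sum_card_fiberwise (f := f)
    (t := low k r ×ˢ low k r ×ˢ low k r ×ˢ low k r) hmaps]
  have hb : ∀ h ∈ low k r ×ˢ low k r ×ˢ low k r ×ˢ low k r,
      ((quad (wset k r)).filter (fun v => f v = h)).card ≤ 2 ^ k * 81 ^ r := by
    rintro ⟨h1, h2, h3, h4⟩ hh
    simp only [Finset.mem_product] at hh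
    refine le_trans ?_ (prod_bound k r h1 h2 h3 h4 hh.1 hh.2.1 hh.2.2.1 hh.2.2.2)
    refine le_trans ?_ (Finset.prod_le_prod' (fun i _ => quad_fibre (h1 i) (h2 i) (h3 i) (h4 i)))
    rw [← Fintype.card_piFinset]
    apply Finset.card_le_card_of_injOn (fun v => fun i => (v.1 i, v.2.1 i, v.2.2 i))
    · intro v hv
      rw [Finset.mem_coe, Finset.mem_filter] at hv
      have hv2 := hv.2
      simp only [hf, Prod.mk.injEq] at hv2
      rw [Finset.mem_coe, Fintype.mem_piFinset]
      intro i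
      simp only [Finset.mem_filter, Finset.mem_univ, true_and]
      exact ⟨congrFun hv2.1 i, congrFun hv2.2.1 i, congrFun hv2.2.2.1 i, congrFun hv2.2.2.2 i⟩
    · intro v _ w _ hvw
      refine Prod.ext ?_ (Prod.ext ?_ ?_)
      · funext i; exact congrArg (fun t => t.1) (congrFun hvw i)
      · funext i; exact congrArg (fun t => t.2.1) (congrFun hvw i)
      · funext i; exact congrArg (fun t => t.2.2) (congrFun hvw i)
  refine (Finset.sum_le_sum hb).trans ?_
  rw [Finset.sum_const, smul_eq_mul]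
  simp only [Finset.card_product]
  apply Nat.mul_le_mul_right
  apply le_of_eq; ring

theorem choose_le_low (k r : ℕ) : k.choose r ≤ (low k r).card := by
  classical
  have h : (Finset.powersetCard r (univ : Finset (Fin k))).card = k.choose r := by
    rw [Finset.card_powersetCard, Finset.card_univ, Fintype.card_fin]
  rw [← h]
  apply Finset.card_le_card_of_injOn (fun s => fun i => if i ∈ s then (1 : ZMod 2) else 0)
  · intro s hs
    rw [Finset.mem_coe, Finset.mem_powersetCard] at hs
    rw [Finset.mem_coe]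
    simp only [low, Finset.mem_filter, Finset.mem_univ, true_and]
    have : univ.filter (fun i => (if i ∈ s then (1 : ZMod 2) else 0) ≠ 0) = s := by
      ext i
      simp
    rw [this, hs.2]
  · intro s _ t _ hst
    ext i
    have := congrFun hst i
    simp only at this
    by_cases h1 : i ∈ s <;> by_cases h2 : i ∈ t <;> simp [h1, h2] at this ⊢

theorem wset_lt (k r : ℕ) (h : r < k) : ((wset k r).card : ℝ) < 4 ^ Fintype.card (Fin k) := by
  have h1 : wset k r ⊂ univ := by
    rw [Finset.ssubset_univ_iff]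
    intro h2
    have h3 : (fun _ => 3 : Fin k → ZMod 4) ∈ wset k r := by rw [h2]; exact Finset.mem_univ _
    simp only [wset, low, Finset.mem_filter, Finset.mem_univ, true_and] at h3
    have h4 : univ.filter (fun _ : Fin k => hi 3 ≠ 0) = univ := by
      ext i
      simp only [Finset.mem_filter, Finset.mem_univ, true_and, iff_true]
      decide
    rw [h4, Finset.card_univ, Fintype.card_fin] at h3
    omega
  have h2 := Finset.card_lt_card h1
  rw [Finset.card_univ, Fintype.card_fun, ZMod.card] at h2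
  exact_mod_cast h2

theorem wset_nonempty (k r : ℕ) : (wset k r).Nonempty := by
  refine ⟨fun _ => 0, ?_⟩
  simp only [wset, low, Finset.mem_filter, Finset.mem_univ, true_and]
  have : univ.filter (fun _ : Fin k => hi 0 ≠ 0) = ∅ := by
    ext i
    simp only [Finset.mem_filter, Finset.mem_univ, true_and, Finset.notMem_empty, iff_false,
      not_not]
    decide
  rw [this]; simp

/-- The bound obtained from weights `(k, r)` and the rational `5 + p / s`. -/
theorem bound_of_weight (c : ℝ) (hc : ValidExponent c) (k r p s : ℕ) (hr : r < k) (hs : 0 < s)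
    (hnum : 81 ^ (r * s) * 2 ^ (k * p) ≤ (k.choose r) ^ (s + p)) :
    (5 : ℝ) + p / s ≤ c := by
  have h1 := le_of_valid c hc (wset k r) (wset_nonempty k r) (wset_lt k r hr)
  rw [Fintype.card_fin] at h1
  set W : ℝ := ((low k r).card : ℝ) with hW
  have hW0 : 0 < W := by
    rw [hW]
    have : 0 < k.choose r := Nat.choose_pos hr.le
    have h2 := choose_le_low k r
    exact_mod_cast lt_of_lt_of_le this h2
  have hWk : W * 2 ^ k < 4 ^ k := by
    have := wset_lt k r hr
    rw [card_wset, Fintype.card_fin] at this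
    push_cast at this
    exact this
  set a : ℝ := W / 2 ^ k with ha
  have ha0 : 0 < a := by rw [ha]; positivity
  have ha1 : a < 1 := by
    rw [ha, div_lt_one (by positivity)]
    have h4 : (4 : ℝ) ^ k = 2 ^ k * 2 ^ k := by rw [← mul_pow]; norm_num
    rw [h4] at hWk
    exact lt_of_mul_lt_mul_right hWk (by positivity)
  have hcard : (((wset k r).card : ℝ) / 4 ^ k) = a := by
    rw [card_wset]
    push_cast
    have h4 : (4 : ℝ) ^ k = 2 ^ k * 2 ^ k := by rw [← mul_pow]; norm_num
    rw [h4, ha]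
    field_simp
    rw [← hW]
  rw [hcard] at h1
  have hT : ((quad (wset k r)).card : ℝ) / 64 ^ k ≤ a ^ 4 * 81 ^ r / 2 ^ k := by
    have h2 : ((quad (wset k r)).card : ℝ) ≤ W ^ 4 * (2 ^ k * 81 ^ r) := by
      rw [hW]
      exact_mod_cast card_quad_wset k r
    have h64 : (64 : ℝ) ^ k = (2 ^ k) ^ 4 * 2 ^ k * 2 ^ k := by
      rw [← pow_mul, ← pow_add, ← pow_add]
      have : (64 : ℝ) = 2 ^ 6 := by norm_num
      rw [this, ← pow_mul]
      congr 1; ring
    rw [div_le_div_iff₀ (by positivity) (by positivity)]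
    rw [ha, div_pow, h64]
    calc ((quad (wset k r)).card : ℝ) * 2 ^ k ≤ W ^ 4 * (2 ^ k * 81 ^ r) * 2 ^ k :=
          mul_le_mul_of_nonneg_right h2 (by positivity)
      _ = W ^ 4 / (2 ^ k) ^ 4 * 81 ^ r * ((2 ^ k) ^ 4 * 2 ^ k * 2 ^ k) := by
          field_simp
  have h3 : a ^ c ≤ a ^ 4 * 81 ^ r / 2 ^ k := h1.trans hT
  -- raise to the power `s`
  have h4 : (a ^ c) ^ s ≤ a ^ (5 * s + p) := by
    have h5 : (a ^ c) ^ s ≤ (a ^ 4 * 81 ^ r / 2 ^ k) ^ s :=
      pow_le_pow_left₀ (by positivity) h3 s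
    refine h5.trans ?_
    have h6 : (81 : ℝ) ^ (r * s) * 2 ^ (k * p) ≤ W ^ (s + p) := by
      have h7 : (81 : ℝ) ^ (r * s) * 2 ^ (k * p) ≤ ((k.choose r : ℕ) : ℝ) ^ (s + p) := by
        exact_mod_cast hnum
      refine h7.trans ?_
      apply pow_le_pow_left₀ (by positivity)
      rw [hW]
      exact_mod_cast choose_le_low k r
    have h8 : (a ^ 4 * 81 ^ r / 2 ^ k) ^ s = a ^ (4 * s) * 81 ^ (r * s) / 2 ^ (k * s) := by
      rw [div_pow, mul_pow, ← pow_mul, ← pow_mul, ← pow_mul]
    rw [h8]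
    have h9 : a ^ (5 * s + p) = a ^ (4 * s) * (W ^ (s + p) / 2 ^ (k * (s + p))) := by
      have : W ^ (s + p) / 2 ^ (k * (s + p)) = a ^ (s + p) := by
        rw [ha, div_pow, pow_mul]
      rw [this, ← pow_add]; congr 1; ring
    rw [h9, mul_div_assoc]
    apply mul_le_mul_of_nonneg_left _ (by positivity)
    rw [div_le_div_iff₀ (by positivity) (by positivity)]
    have h10 : (2 : ℝ) ^ (k * (s + p)) = 2 ^ (k * p) * 2 ^ (k * s) := by
      rw [← pow_add]; congr 1; ring
    rw [h10]
    calc (81 : ℝ) ^ (r * s) * (2 ^ (k * p) * 2 ^ (k * s)) =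
        (81 : ℝ) ^ (r * s) * 2 ^ (k * p) * 2 ^ (k * s) := by ring
      _ ≤ W ^ (s + p) * 2 ^ (k * s) := mul_le_mul_of_nonneg_right h6 (by positivity)
  have h5 : a ^ (c * s) ≤ a ^ ((5 * s + p : ℕ) : ℝ) := by
    rw [Real.rpow_natCast, Real.rpow_mul ha0.le, Real.rpow_natCast]
    exact h4
  rw [Real.rpow_le_rpow_left_iff_of_base_lt_one ha0 ha1] at h5
  have hs' : (0 : ℝ) < s := by exact_mod_cast hs
  have h6 : (5 : ℝ) + p / s = (5 * s + p) / s := by field_simp
  rw [h6, div_le_iff₀ hs']
  push_cast at h5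
  exact h5

end Pool.Agent.H36Sq
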